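import Pool.Agent.K7.H8.Co.Top

/-! The core: the translated triangle over the field of Laurent series. -/

set_option autoImplicit false

namespace Pool.Agent.K7.H8.Co

open Polynomial Finset

variable (E : Type) [Field E]

/-- the field of Laurent series -/
abbrev LK : Type := LaurentSeries E

/-- the parameter -/
noncomputable def pp : LK E := HahnSeries.single (1 : ℤ) (1 : E)

variable {E}

/-- the polynomial of the coefficients of index `n` -/
noncomputable def ex (n : ℤ) (P : (LK E)[X]) : E[X] :=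
  ∑ i ∈ range (P.natDegree + 1), monomial i ((P.coeff i).coeff n)

theorem coeff_ex (n : ℤ) (P : (LK E)[X]) (i : ℕ) : (ex n P).coeff i = (P.coeff i).coeff n := by
  unfold ex
  rw [finsetSum_coeff]
  simp only [coeff_monomial]
  rw [sum_ite_eq']
  split_ifs with h
  · rfl
  · rw [coeff_eq_zero_of_natDegree_lt (by rw [mem_range] at h; omega)]
    rfl

theorem ex_mul (n : ℤ) (P : (LK E)[X]) : ex n ((X - C 1) * P) = (X - C 1) * ex n P := by
  ext i
  rw [coeff_ex, sub_mul, sub_mul, coeff_sub, coeff_sub, C_1, C_1, one_mul, one_mul, coeff_ex]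
  rcases i with _ | i
  · rw [mul_coeff_zero, mul_coeff_zero, coeff_X_zero, coeff_X_zero, zero_mul, zero_mul]
    simp
  · rw [coeff_X_mul, coeff_X_mul, coeff_ex]
    simp

theorem ex_pow_mul (n : ℤ) (M : ℕ) (P : (LK E)[X]) :
    ex n ((X - C 1) ^ M * P) = (X - C 1) ^ M * ex n P := by
  induction M with
  | zero => simp
  | succ M ih => rw [pow_succ', pow_succ', mul_assoc, mul_assoc, ex_mul, ih]

theorem ex_rows (n : ℤ) (g : ℕ → (LK E)[X]) (N k : ℕ) :
    ex n (∑ j ∈ range (N + 1), C (j.choose k : LK E) * (g j * X ^ (N - j))) =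
      ∑ j ∈ range (N + 1), C (j.choose k : E) * (ex n (g j) * X ^ (N - j)) := by
  ext i
  rw [coeff_ex]
  simp only [finsetSum_coeff, coeff_C_mul, coeff_mul_X_pow']
  rw [HahnSeries.coeff_sum]
  refine sum_congr rfl fun j _ => ?_
  have h1 : ∀ y : LK E, ((j.choose k : ℕ) : LK E) * y = ((j.choose k : ℕ) : E) • y := by
    intro y
    rw [← nsmul_eq_mul, Nat.cast_smul_eq_nsmul]
  rw [h1, HahnSeries.coeff_smul, smul_eq_mul]
  congr 1
  split_ifs
  · rw [coeff_ex]
  · rfl

theorem coeff_comp_neg (P : E[X]) (i : ℕ) : (P.comp (-X)).coeff i = (-1) ^ i * P.coeff i := by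
  have h : (-X : E[X]) = C (-1) * X := by rw [C_neg, C_1]; ring
  rw [h, comp_C_mul_X_coeff, mul_comm]

theorem coeff_mul_pp (b : LK E) (p : ℕ) (n : ℤ) :
    (b * (-pp E) ^ p).coeff (n + p) = (-1) ^ p * b.coeff n := by
  have h1 : (-pp E) ^ p = HahnSeries.single (p : ℤ) ((-1 : E) ^ p) := by
    rw [neg_pow, pp, HahnSeries.single_pow, one_pow]
    have h2 : ((-1 : LK E) ^ p) = HahnSeries.single (0 : ℤ) ((-1 : E) ^ p) := by
      have h3 : (-1 : LK E) = HahnSeries.single (0 : ℤ) (-1 : E) := by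
        rw [HahnSeries.single_neg]
        rfl
      rw [h3, HahnSeries.single_pow]
      simp
    rw [h2, HahnSeries.single_mul_single]
    simp
  rw [h1, HahnSeries.coeff_mul_single_add]
  ring

/-- **the core**: the translated triangle -/
theorem core {l θ : ℝ} (hP : Par l θ) {m N : ℕ} {c1 : ℕ} (hc1 : Mis l θ c1)
    (hq : c1 - ph l θ c1 ≤ m) (hE : ∀ b : ℕ, 1 ≤ b → b ≤ m + ph l θ c1 → (b : E) ≠ 0)
    {g : ℕ → (LK E)[X]} (htop : ∀ j, N < j → g j = 0)
    (hsupp : ∀ j p, (g j).coeff p ≠ 0 → (p : ℝ) + l * j ≤ (l + 1) * m + θ)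
    (hrows : ∀ k < m, (X - C 1 : (LK E)[X]) ^ (13 * (m - k)) ∣
      ∑ j ∈ range (N + 1), C (j.choose k : LK E) * (g j * X ^ (N - j)))
    (hval : ∀ j, 1 ≤ j → (g j).eval (-pp E) = 0) (j0 : ℕ) : g j0 = 0 := by
  classical
  by_contra hne
  -- the minimal weight
  obtain ⟨S, hS⟩ : ∃ S : Finset (Σ _ : ℕ, ℕ), S = (range (N + 1)).sigma fun j => (g j).support :=
    ⟨_, rfl⟩
  have hmem : ∀ q : (Σ _ : ℕ, ℕ), q ∈ S ↔ (g q.1).coeff q.2 ≠ 0 := by
    rintro ⟨j, p⟩
    rw [hS, mem_sigma, mem_range, mem_support_iff]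
    constructor
    · exact fun h => h.2
    · intro h
      refine ⟨?_, h⟩
      by_contra h2
      simp only at h h2
      rw [htop j (by omega), coeff_zero] at h
      exact h rfl
  have hSne : S.Nonempty := by
    obtain ⟨p, hp⟩ : ∃ p, (g j0).coeff p ≠ 0 := by
      by_contra hcon
      push Not at hcon
      exact hne (ext hcon)
    exact ⟨⟨j0, p⟩, (hmem _).2 hp⟩
  obtain ⟨q0, hq0, hmin⟩ := exists_min_image S
    (fun q => ((g q.1).coeff q.2).order + q.2 - q.1) hSne
  obtain ⟨w0, hw0⟩ : ∃ w0 : ℤ, w0 = ((g q0.1).coeff q0.2).order + q0.2 - q0.1 := ⟨_, rfl⟩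
  have hlow : ∀ (j p : ℕ) (n : ℤ), n < w0 + j - p → ((g j).coeff p).coeff n = 0 := by
    intro j p n hn
    by_cases h1 : (g j).coeff p = 0
    · rw [h1]; rfl
    · have h2 := hmin ⟨j, p⟩ ((hmem _).2 h1)
      simp only at h2
      apply HahnSeries.coeff_eq_zero_of_lt_order
      omega
  -- the systems
  have hsys : ∀ n : ℤ, Sys l θ m N (fun j => ex n (g j)) := by
    intro n
    refine ⟨fun j hj => ?_, fun j p h => ?_, fun k hk => ?_⟩
    · ext i
      rw [coeff_ex, htop j hj]
      simp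
    · apply hsupp j p
      intro h1
      apply h
      rw [coeff_ex, h1]
      rfl
    · obtain ⟨Q, hQ⟩ := hrows k hk
      refine ⟨ex n Q, ?_⟩
      rw [← ex_rows, hQ, ex_pow_mul]
  have hcol : ∀ c : ℤ, ∀ j p : ℕ, (ex (w0 + c) (g j)).coeff p ≠ 0 → (j : ℤ) - p ≤ c := by
    intro c j p h
    rw [coeff_ex] at h
    by_contra h1
    exact h (hlow j p _ (by omega))
  have hneg : ∀ j p : ℕ, j < p → ((g j).coeff p).coeff (w0 + (j - p)) = 0 := by
    intro j p hjp
    have h1 := top_neg hP (hsys (w0 + ((j : ℤ) - p))) (hcol ((j : ℤ) - p)) (by omega) j p rfl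
    rwa [coeff_ex] at h1
  choose Γ hΓ1 hΓ2 using fun c : ℕ => top_pos hP (hsys (w0 + (c : ℤ))) (c := c) (hcol (c : ℤ))
  -- the identity in one variable
  have hid : ∑ c ∈ range (N + 1), C (Γ c * (-1) ^ (m - (c - ph l θ c))) *
      (X ^ c * (1 + X) ^ (m - (c - ph l θ c))) = (C (∑ c ∈ range (N + 1),
        (C (Γ c * (-1) ^ (m - (c - ph l θ c))) *
      (X ^ c * (1 + X) ^ (m - (c - ph l θ c))) : E[X]).coeff 0) : E[X]) := by
    have hterm : ∀ c j : ℕ, (C (Γ c * (-1) ^ (m - (c - ph l θ c))) *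
        (X ^ c * (1 + X) ^ (m - (c - ph l θ c))) : E[X]).coeff j =
        if c ≤ j then (-1) ^ (j - c) * ((g j).coeff (j - c)).coeff (w0 + c) else 0 := by
      intro c j
      have h1 : (C (Γ c * (-1) ^ (m - (c - ph l θ c))) *
          (X ^ c * (1 + X) ^ (m - (c - ph l θ c))) : E[X]) =
          X ^ c * ((C (Γ c) * (X - C 1) ^ (m - (c - ph l θ c)) : E[X]).comp (-X)) := by
        rw [mul_comp, C_comp, pow_comp, sub_comp, X_comp, C_comp, C_1]
        have h2 : (-X - 1 : E[X]) = (-1) * (1 + X) := by ring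
        rw [h2, mul_pow, C_mul, C_pow, C_neg, C_1]
        ring
      rw [h1, coeff_X_pow_mul']
      split_ifs with h3
      · rw [coeff_comp_neg, ← hΓ2 c (j - c), coeff_ex]
        congr 4
        omega
      · rfl
    ext j
    rw [finsetSum_coeff]
    rcases Nat.eq_zero_or_pos j with hj | hj
    · rw [hj, coeff_C_zero]
    · rw [coeff_C_of_ne_zero (by omega)]
      simp only [hterm]
      by_cases hjN : N < j
      · apply sum_eq_zero
        intro c hc
        rw [mem_range] at hc
        rw [if_pos (by omega), htop j hjN, coeff_zero]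
        simp
      -- the value at `-pp`
      have h1 := hval j hj
      rw [eval_eq_sum_range' (n := max (j + 1) ((g j).natDegree + 1)) (by omega)] at h1
      have h2 := congrArg (fun u : LK E => u.coeff (w0 + j)) h1
      simp only [HahnSeries.coeff_sum, HahnSeries.coeff_zero] at h2
      have h3 : ∀ p : ℕ, ((g j).coeff p * (-pp E) ^ p).coeff (w0 + j) =
          (-1) ^ p * ((g j).coeff p).coeff (w0 + (j - p)) := by
        intro p
        rw [← coeff_mul_pp]
        congr 1
        ring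
      simp only [h3] at h2
      refine Eq.trans ?_ h2
      -- compare the sums
      have h4 : ∑ p ∈ range (max (j + 1) ((g j).natDegree + 1)),
          (-1 : E) ^ p * ((g j).coeff p).coeff (w0 + (j - p)) =
          ∑ p ∈ range (j + 1), (-1 : E) ^ p * ((g j).coeff p).coeff (w0 + (j - p)) := by
        symm
        apply sum_subset (range_subset_range.2 (le_max_left _ _))
        intro p _ hp
        rw [mem_range] at hp
        rw [hneg j p (by omega), mul_zero]
      rw [h4]
      have h5 : ∑ c ∈ range (N + 1), (if c ≤ j then (-1 : E) ^ (j - c) *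
          ((g j).coeff (j - c)).coeff (w0 + c) else 0) =
          ∑ c ∈ range (j + 1), (-1 : E) ^ (j - c) * ((g j).coeff (j - c)).coeff (w0 + c) := by
        rw [← sum_filter]
        apply sum_congr
        · ext c
          simp only [mem_filter, mem_range]
          omega
        · intro c _
          rfl
      rw [h5, ← sum_range_reflect (fun p : ℕ => (-1 : E) ^ p *
        ((g j).coeff p).coeff (w0 + ((j : ℤ) - p))) (j + 1)]
      refine sum_congr rfl fun c hc => ?_
      rw [mem_range] at hc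
      have e1 : j + 1 - 1 - c = j - c := by omega
      simp only [e1]
      congr 2
      push_cast [Nat.cast_sub (show c ≤ j by omega)]
      ring
  have hz := one_var hP.l1 hP.t0 (m := m) (N := N)
    (Γ := fun c => Γ c * (-1) ^ (m - (c - ph l θ c)))
    (fun c hc => by simp only [hΓ1 c hc, zero_mul]) hc1 hq hE hid
  have hΓ0 : ∀ c ≤ N, Γ c = 0 := by
    intro c hc
    have h1 := hz c hc
    rcases mul_eq_zero.1 h1 with h2 | h2
    · exact h2
    · exact absurd h2 (pow_ne_zero _ (neg_ne_zero.2 one_ne_zero))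
  -- contradiction
  have h1 := (hmem q0).1 hq0
  have h2 : ((g q0.1).coeff q0.2).coeff (w0 + (q0.1 - q0.2)) ≠ 0 := by
    have e1 : w0 + ((q0.1 : ℤ) - q0.2) = ((g q0.1).coeff q0.2).order := by rw [hw0]; ring
    rw [e1]
    exact fun h => h1 (HahnSeries.coeff_order_eq_zero.1 h)
  rcases lt_or_ge q0.1 q0.2 with h3 | h3
  · exact h2 (hneg _ _ h3)
  · have hN : q0.1 ≤ N := by
      by_contra h4
      rw [htop q0.1 (by omega), coeff_zero] at h1
      exact h1 rfl
    have h4 := hΓ2 (q0.1 - q0.2) q0.2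
    rw [hΓ0 _ (by omega), C_0, zero_mul, coeff_zero, coeff_ex] at h4
    apply h2
    have e1 : q0.1 - q0.2 + q0.2 = q0.1 := by omega
    rw [e1] at h4
    rw [← h4]
    congr 1
    push_cast [Nat.cast_sub h3]
    ring

end Pool.Agent.K7.H8.Co
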