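import Pool.Agent.K7.H8.Co.Core
import Pool.Agent.TH518.CW.Two

/-! The germ `X = 1 + s + u`, `W = 1 / (1 + u)`. -/

set_option autoImplicit false

namespace Pool.Agent.K7.H8.Co

open Finset Pool.Agent.TH716.CF Pool.Agent.TH98.CF

open Pool.Agent.TH603.EL (Lau)

variable (E : Type) [Field E]

theorem pp_ne : (1 + pp E : LK E) ≠ 0 := by
  intro h
  have h1 := congrArg (fun u : LK E => u.coeff 0) h
  have h2 : (pp E : LK E).coeff 0 = 0 := HahnSeries.coeff_single_of_ne (by norm_num)
  simp [h2] at h1

/-- the unit `1 + s + u` -/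
noncomputable def xu : (PowerSeries (LK E))ˣ := xU (1 + (pp E)) (pp_ne E)

/-- the unit `1 + u` -/
noncomputable def wu : (PowerSeries (LK E))ˣ := xU (1 : LK E) one_ne_zero

/-- the substitution with a transversal parameter -/
noncomputable def Ps : Lau (LK E) →+* PowerSeries (PowerSeries (LK E)) :=
  AddMonoidAlgebra.liftNCRingHom ((PowerSeries.C (R := PowerSeries (LK E))).comp PowerSeries.C)
    { toFun := fun m => PowerSeries.C (((xu E) ^ (-m.toAdd.1 - m.toAdd.2) * (wu E) ^ (-m.toAdd.2) :
          (PowerSeries (LK E))ˣ) : PowerSeries (LK E)) *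
        (((yU (PowerSeries (LK E))) ^ m.toAdd.2 : (PowerSeries (PowerSeries (LK E)))ˣ) :
          PowerSeries (PowerSeries (LK E)))
      map_one' := by simp
      map_mul' := by
        intro m m'
        simp only [toAdd_mul, Prod.fst_add, Prod.snd_add]
        have e1 : -(m.toAdd.1 + m'.toAdd.1) - (m.toAdd.2 + m'.toAdd.2) =
          (-m.toAdd.1 - m.toAdd.2) + (-m'.toAdd.1 - m'.toAdd.2) := by ring
        rw [e1, neg_add, zpow_add, zpow_add, zpow_add]
        simp only [Units.val_mul, map_mul]
        ring }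
    (fun _ _ => Commute.all _ _)

theorem Ps_single (m : ℤ × ℤ) (c : LK E) :
    (Ps E) (AddMonoidAlgebra.single m c) = PowerSeries.C (PowerSeries.C c) *
      (PowerSeries.C (((xu E) ^ (-m.1 - m.2) * (wu E) ^ (-m.2) : (PowerSeries (LK E))ˣ) : PowerSeries (LK E)) *
        (((yU (PowerSeries (LK E))) ^ m.2 : (PowerSeries (PowerSeries (LK E)))ˣ) :
          PowerSeries (PowerSeries (LK E)))) := by
  unfold Ps
  rw [AddMonoidAlgebra.liftNCRingHom_single]
  rfl

theorem coeff_Ps_single (a : ℤ) (b : ℕ) (c : LK E) (k : ℕ) :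
    PowerSeries.coeff k ((Ps E) (AddMonoidAlgebra.single (a, (b : ℤ)) c)) =
      PowerSeries.C (c * (b.choose k : LK E)) *
        (((xu E) ^ (-a - b) * (wu E) ^ (-(b : ℤ)) : (PowerSeries (LK E))ˣ) : PowerSeries (LK E)) := by
  rw [Ps_single]
  simp only
  rw [PowerSeries.coeff_C_mul, PowerSeries.coeff_C_mul, zpow_natCast (yU (PowerSeries (LK E))),
    Units.val_pow_eq_pow_val, yU_val]
  have h : PowerSeries.coeff k ((1 + PowerSeries.X : PowerSeries (PowerSeries (LK E))) ^ b) =
      (b.choose k : PowerSeries (LK E)) := by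
    have h1 : ((1 + PowerSeries.X : PowerSeries (PowerSeries (LK E))) ^ b) =
        (((1 + Polynomial.X : Polynomial (PowerSeries (LK E))) ^ b : Polynomial (PowerSeries (LK E))) :
          PowerSeries (PowerSeries (LK E))) := by
      rw [Polynomial.coe_pow, Polynomial.coe_add, Polynomial.coe_one, Polynomial.coe_X]
    rw [h1, Polynomial.coeff_coe, Polynomial.coeff_one_add_X_pow]
  rw [h]
  have h2 : ((b.choose k : ℕ) : PowerSeries (LK E)) = PowerSeries.C ((b.choose k : ℕ) : LK E) := by simp
  rw [h2, map_mul]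
  ring

/-- the germ -/
noncomputable def ph0 : Lau (LK E) →+* PowerSeries (LK E) :=
  (PowerSeries.constantCoeff (R := PowerSeries (LK E))).comp (Ps E)

theorem ph0_germ : IsGerm (ph0 E) where
  const c := by
    unfold ph0
    rw [RingHom.comp_apply, Ps_single]
    simp
  der := by
    have h1 : (ph0 E) (AddMonoidAlgebra.single (1, 0) 1) =
        (((xu E)⁻¹ : (PowerSeries (LK E))ˣ) : PowerSeries (LK E)) := by
      unfold ph0
      rw [RingHom.comp_apply, Ps_single]
      simp
    rw [h1]
    intro h2
    have h3 : (((xu E) : (PowerSeries (LK E))ˣ) : PowerSeries (LK E)) *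
        (((xu E)⁻¹ : (PowerSeries (LK E))ˣ) : PowerSeries (LK E)) = 1 := Units.mul_inv _
    have hx : (((xu E) : (PowerSeries (LK E))ˣ) : PowerSeries (LK E)) = PowerSeries.C (1 + (pp E)) + PowerSeries.X :=
      xU_val _ _
    have h4 := congrArg (PowerSeries.coeff 0) h3
    have h5 := congrArg (PowerSeries.coeff 1) h3
    rw [hx, add_mul, map_add, PowerSeries.coeff_C_mul, h2, mul_zero, zero_add,
      show (1 : ℕ) = 0 + 1 from rfl, PowerSeries.coeff_succ_X_mul, PowerSeries.coeff_one,
      if_neg (by norm_num)] at h5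
    rw [hx, add_mul, map_add, PowerSeries.coeff_C_mul, h5, mul_zero, zero_add,
      PowerSeries.coeff_zero_X_mul, PowerSeries.coeff_one] at h4
    simp at h4

theorem mem_FI_of_J {f : Lau (LK E)} {r w : ℕ} (hf : f ∈ J (ph0 E) r ^ w) :
    (Ps E) f ∈ FI (PowerSeries.X : PowerSeries (LK E)) r w := by
  have hle : J (ph0 E) r ≤ Ideal.comap (Ps E) (FI (PowerSeries.X : PowerSeries (LK E)) r 1) := by
    intro g hg
    rw [mem_J] at hg
    show (Ps E) g ∈ FI (PowerSeries.X : PowerSeries (LK E)) r 1
    rw [mem_FI]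
    intro k
    rcases k with _ | k
    · rw [Nat.sub_zero, mul_one, PowerSeries.X_pow_dvd_iff]
      intro n hn
      have h1 := hg n hn
      unfold ph0 at h1
      rw [RingHom.comp_apply] at h1
      rw [PowerSeries.coeff_zero_eq_constantCoeff_apply]
      exact h1
    · have : 1 - (k + 1) = 0 := by omega
      rw [this]
      simp
  exact FI_pow _ r w (Ideal.le_comap_pow (Ps E) w (Ideal.pow_right_mono hle w hf))

open Polynomial in
/-- the value at `1 + u` -/
noncomputable def ev : (LK E)[X] →+* PowerSeries (LK E) :=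
  eval₂RingHom PowerSeries.C (((wu E) : (PowerSeries (LK E))ˣ) : PowerSeries (LK E))

open Polynomial in
theorem ev_eq (P : (LK E)[X]) : (ev E) P = ((taylor 1 P : (LK E)[X]) : PowerSeries (LK E)) := by
  have h : (ev E) = (coeToPowerSeries.ringHom (R := LK E)).comp (taylorAlgHom (1 : LK E)).toRingHom := by
    apply ringHom_ext
    · intro a
      unfold ev
      simp
    · unfold ev
      have hw : (((wu E) : (PowerSeries (LK E))ˣ) : PowerSeries (LK E)) = PowerSeries.C 1 + PowerSeries.X :=
        xU_val _ _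
      simp [hw, add_comm]
  rw [h]
  rfl

open Polynomial in
theorem dvd_of_ev {M : ℕ} {P : (LK E)[X]} (h : (PowerSeries.X : PowerSeries (LK E)) ^ M ∣ (ev E) P) :
    (X - C 1 : (LK E)[X]) ^ M ∣ P := by
  rw [ev_eq] at h
  have h6 : (X : (LK E)[X]) ^ M ∣ taylor 1 P := by
    rw [X_pow_dvd_iff]
    rw [PowerSeries.X_pow_dvd_iff] at h
    intro d hd
    have := h d hd
    rwa [coeff_coe] at this
  obtain ⟨q, hq⟩ := h6
  refine ⟨taylor (-1) q, ?_⟩
  have h7 : taylor (-1) (taylor 1 P) = P := by
    rw [taylor_taylor, neg_add_cancel, taylor_zero]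
  rw [← h7, hq, taylor_mul, taylor_pow, taylor_X]
  rw [C_neg, ← sub_eq_add_neg]

open Polynomial in
theorem ev_taylor (P : (LK E)[X]) : (ev E) (taylor (pp E) P) =
    eval₂ PowerSeries.C (((xu E) : (PowerSeries (LK E))ˣ) : PowerSeries (LK E)) P := by
  unfold ev
  rw [taylor_apply, coe_eval₂RingHom, eval₂_comp, eval₂_add, eval₂_X, eval₂_C]
  congr 1
  have hw : (((wu E) : (PowerSeries (LK E))ˣ) : PowerSeries (LK E)) = PowerSeries.C 1 + PowerSeries.X :=
    xU_val _ _
  have hx : (((xu E) : (PowerSeries (LK E))ˣ) : PowerSeries (LK E)) = PowerSeries.C (1 + (pp E)) + PowerSeries.X :=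
    xU_val _ _
  rw [hw, hx, map_add]
  ring

open Polynomial in
/-- **emptiness** for the triangle with its apex -/
theorem empG_core {p : ℕ} [CharP E p] {l θ : ℝ} (hP : Par l θ) {m c1 : ℕ} (hc1 : Mis l θ c1)
    (hq : c1 - ph l θ c1 ≤ m) (hE : ∀ b : ℕ, 1 ≤ b → b ≤ m + ph l θ c1 → (b : E) ≠ 0) {S : Set (ℤ × ℤ)} {e : ℤ}
    (hS : ∀ q ∈ S, 0 ≤ q.2 ∧ ((1 ≤ e - q.1 - q.2 ∧
      ((e - q.1 - q.2 : ℤ) : ℝ) + l * q.2 ≤ (l + 1) * m + θ) ∨ (q.1 = e ∧ q.2 = 0))) :
    EmpG p (fun _ : Unit => 13) (fun _ => m) S := by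
  classical
  refine ⟨LK E, inferInstance,
    charP_of_injective_ringHom (f := (HahnSeries.C : E →+* LK E)) HahnSeries.C_injective p,
    fun _ => (ph0 E), fun _ => ph0_germ E, ?_⟩
  intro f hfS hf
  have hf1 := mem_FI_of_J E (hf ())
  rw [mem_FI] at hf1
  have hsup : ∀ q ∈ f.coeff.support, 0 ≤ q.2 ∧ 0 ≤ e - q.1 - q.2 ∧
      ((e - q.1 - q.2 : ℤ) : ℝ) + l * q.2 ≤ (l + 1) * m + θ := by
    intro q hq
    obtain ⟨h1, h2⟩ := hS q (hfS q (Finsupp.mem_support_iff.1 hq))
    rcases h2 with ⟨h2, h3⟩ | ⟨h2, h3⟩
    · exact ⟨h1, by omega, h3⟩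
    · refine ⟨h1, by omega, ?_⟩
      rw [h2, h3]
      push_cast
      have h4 := hP.l1
      have h5 := hP.t0
      have : 0 ≤ (l + 1) * (m : ℝ) := by positivity
      linarith
  -- the bound of the heights
  obtain ⟨N, hN⟩ : ∃ N : ℕ, N = f.coeff.support.sup (fun q => q.2.toNat) := ⟨_, rfl⟩
  have hNle : ∀ q ∈ f.coeff.support, q.2.toNat ≤ N := by
    intro q hq
    rw [hN]
    exact Finset.le_sup (f := fun q : ℤ × ℤ => q.2.toNat) hq
  obtain ⟨F, hF⟩ : ∃ F : ℕ → (LK E)[X], F = fun j : ℕ => ∑ q ∈ f.coeff.support with q.2 = (j : ℤ),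
    C (f.coeff q) * X ^ (e - q.1 - q.2).toNat := ⟨_, rfl⟩
  have hFc : ∀ j p : ℕ, (F j).coeff p = f.coeff (e - p - j, (j : ℤ)) := by
    intro j p
    rw [hF]
    simp only [finsetSum_coeff, coeff_C_mul, coeff_X_pow]
    by_cases h1 : f.coeff (e - p - j, (j : ℤ)) = 0
    · rw [h1]
      apply sum_eq_zero
      intro q hq
      rw [mem_filter] at hq
      by_cases h2 : p = (e - q.1 - q.2).toNat
      · exfalso
        have h3 := hsup q hq.1
        have h4 : q = (e - p - j, (j : ℤ)) := by
          ext
          · simp only; omega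
          · exact hq.2
        rw [← h4] at h1
        exact Finsupp.mem_support_iff.1 hq.1 h1
      · rw [if_neg h2, mul_zero]
    · have h2 : ((e - p - j, (j : ℤ)) : ℤ × ℤ) ∈ f.coeff.support := Finsupp.mem_support_iff.2 h1
      rw [sum_eq_single (e - p - j, (j : ℤ))]
      · rw [if_pos (by simp only; omega), mul_one]
      · intro q hq hne
        rw [mem_filter] at hq
        rw [if_neg, mul_zero]
        intro h3
        apply hne
        have h4 := hsup q hq.1
        ext
        · simp only; omega
        · exact hq.2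
      · intro h3
        exact absurd (show ((e - p - j, (j : ℤ)) : ℤ × ℤ) ∈
          f.coeff.support.filter (fun q => q.2 = (j : ℤ)) from mem_filter.2 ⟨h2, rfl⟩) h3
  have hFtop : ∀ j, N < j → F j = 0 := by
    intro j hj
    refine Polynomial.ext fun p => ?_
    rw [hFc, coeff_zero]
    by_contra h1
    have h2 := hNle _ (Finsupp.mem_support_iff.2 h1)
    simp only at h2
    omega
  have hg0 : ∀ j, taylor (pp E) (F j) = 0 := by
    intro j0
    refine core hP hc1 hq hE (N := N) (g := fun j => taylor (pp E) (F j)) ?_ ?_ ?_ ?_ j0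
    · intro j hj
      simp only [hFtop j hj, map_zero]
    · intro j p h1
      have h2 : taylor (pp E) (F j) ≠ 0 := by
        intro h3
        simp only [h3, coeff_zero] at h1
        exact h1 rfl
      have h3 : F j ≠ 0 := by
        intro h4
        apply h2
        rw [h4, map_zero]
      have h4 : p ≤ (F j).natDegree := by
        have := le_natDegree_of_ne_zero h1
        rwa [natDegree_taylor] at this
      have h5 : (F j).coeff (F j).natDegree ≠ 0 := by
        rw [← Polynomial.leadingCoeff]
        exact leadingCoeff_ne_zero.2 h3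
      rw [hFc] at h5
      have h6 := (hsup _ (Finsupp.mem_support_iff.2 h5)).2.2
      have h7 : (p : ℝ) ≤ (F j).natDegree := by exact_mod_cast h4
      push_cast at h6
      linarith
    · intro k hk
      apply dvd_of_ev E
      have h1 := hf1 k
      -- the row
      have h2 : (ev E) (∑ j ∈ range (N + 1), C (j.choose k : LK E) * (taylor (pp E) (F j) * X ^ (N - j))) =
          (((xu E) ^ e * (wu E) ^ (N : ℤ) : (PowerSeries (LK E))ˣ) : PowerSeries (LK E)) *
            PowerSeries.coeff k ((Ps E) f) := by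
        have h3 : f = ∑ q ∈ f.coeff.support, AddMonoidAlgebra.single q (f.coeff q) :=
          (sum_single_coeff f).symm
        conv_rhs => rw [h3, map_sum, map_sum, mul_sum]
        rw [map_sum]
        have h4 : ∀ q ∈ f.coeff.support, (((xu E) ^ e * (wu E) ^ (N : ℤ) : (PowerSeries (LK E))ˣ) :
            PowerSeries (LK E)) * PowerSeries.coeff k ((Ps E) (AddMonoidAlgebra.single q (f.coeff q))) =
            PowerSeries.C ((q.2.toNat.choose k : ℕ) : LK E) * (PowerSeries.C (f.coeff q) *
              (((xu E) : (PowerSeries (LK E))ˣ) : PowerSeries (LK E)) ^ (e - q.1 - q.2).toNat *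
              (((wu E) : (PowerSeries (LK E))ˣ) : PowerSeries (LK E)) ^ (N - q.2.toNat)) := by
          intro q hq
          have h5 := hsup q hq
          have h6 := hNle q hq
          have h7 : q = (q.1, ((q.2.toNat : ℕ) : ℤ)) := by
            ext
            · rfl
            · simp only; omega
          conv_lhs => rw [h7]
          rw [coeff_Ps_single]
          have h8 : ((xu E) ^ e * (wu E) ^ (N : ℤ)) * ((xu E) ^ (-q.1 - (q.2.toNat : ℤ)) *
              (wu E) ^ (-(q.2.toNat : ℤ))) = (xu E) ^ (e - q.1 - q.2).toNat * (wu E) ^ (N - q.2.toNat) := by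
            rw [← zpow_natCast (xu E), ← zpow_natCast (wu E), mul_mul_mul_comm, ← zpow_add, ← zpow_add]
            congr 2
            · omega
            · omega
          have h9 := congrArg (fun u : (PowerSeries (LK E))ˣ => (u : PowerSeries (LK E))) h8
          simp only [Units.val_mul, Units.val_pow_eq_pow_val] at h9
          rw [← h7, map_mul]
          simp only [Units.val_mul]
          calc _ = PowerSeries.C ((q.2.toNat.choose k : ℕ) : LK E) * (PowerSeries.C (f.coeff q) *
                (((((xu E) ^ e : (PowerSeries (LK E))ˣ) : PowerSeries (LK E)) *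
                  (((wu E) ^ (N : ℤ) : (PowerSeries (LK E))ˣ) : PowerSeries (LK E))) *
                ((((xu E) ^ (-q.1 - (q.2.toNat : ℤ)) : (PowerSeries (LK E))ˣ) : PowerSeries (LK E)) *
              (((wu E) ^ (-(q.2.toNat : ℤ)) : (PowerSeries (LK E))ˣ) : PowerSeries (LK E))))) := by ring
            _ = _ := by rw [h9]; ring
        rw [sum_congr rfl h4]
        have h5 : ∀ j ∈ range (N + 1), (ev E) (C (j.choose k : LK E) * (taylor (pp E) (F j) * X ^ (N - j))) =
            ∑ q ∈ f.coeff.support with q.2.toNat = j, PowerSeries.C ((q.2.toNat.choose k : ℕ) : LK E) *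
              (PowerSeries.C (f.coeff q) *
              (((xu E) : (PowerSeries (LK E))ˣ) : PowerSeries (LK E)) ^ (e - q.1 - q.2).toNat *
              (((wu E) : (PowerSeries (LK E))ˣ) : PowerSeries (LK E)) ^ (N - q.2.toNat)) := by
          intro j hj
          have hC : ∀ a : LK E, (ev E) (C a) = PowerSeries.C a := by
            intro a
            unfold ev
            simp
          have hX : (ev E) X = (((wu E) : (PowerSeries (LK E))ˣ) : PowerSeries (LK E)) := by
            unfold ev
            simp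
          rw [map_mul, map_mul, map_pow, hC, hX, ev_taylor, hF]
          simp only
          rw [eval₂_finsetSum, sum_mul, mul_sum]
          have h6 : f.coeff.support.filter (fun q => q.2 = (j : ℤ)) =
              f.coeff.support.filter (fun q => q.2.toNat = j) := by
            apply filter_congr
            intro q hq
            have := (hsup q hq).1
            constructor <;> intro h <;> omega
          rw [h6]
          refine sum_congr rfl fun q hq => ?_
          rw [mem_filter] at hq
          rw [hq.2, eval₂_mul, eval₂_C, eval₂_X_pow]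
        rw [sum_congr rfl h5]
        rw [sum_fiberwise_of_maps_to (s := f.coeff.support) (t := range (N + 1))
          (g := fun q : ℤ × ℤ => q.2.toNat)
          (fun q hq => mem_range.2 (by have := hNle q hq; omega))
          (fun q => PowerSeries.C ((q.2.toNat.choose k : ℕ) : LK E) *
              (PowerSeries.C (f.coeff q) *
              (((xu E) : (PowerSeries (LK E))ˣ) : PowerSeries (LK E)) ^ (e - q.1 - q.2).toNat *
              (((wu E) : (PowerSeries (LK E))ˣ) : PowerSeries (LK E)) ^ (N - q.2.toNat)))]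
      rw [h2]
      exact h1.mul_left _
    · intro j hj
      rw [taylor_eval, neg_add_cancel, ← coeff_zero_eq_eval_zero, hFc]
      by_contra h1
      rcases (hS _ (hfS _ h1)).2 with ⟨h2, _⟩ | ⟨h2, h3⟩
      · simp only at h2
        omega
      · simp only at h3
        omega
  apply eq_zero_of_coeff
  intro q
  by_contra hq1
  have h1 := hsup q (Finsupp.mem_support_iff.2 hq1)
  have h2 : F q.2.toNat = 0 := (taylor_eq_zero _ _).1 (hg0 _)
  have h3 := hFc q.2.toNat (e - q.1 - q.2).toNat
  rw [h2, coeff_zero] at h3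
  apply hq1
  rw [h3]
  congr 1
  ext
  · simp only; omega
  · simp only; omega

end Pool.Agent.K7.H8.Co
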