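import Mathlib

/-! The identity in one variable. -/

set_option autoImplicit false

namespace Pool.Agent.K7.H8.Co

open Polynomial Finset

/-- the phase of a column -/
noncomputable def ph (l θ : ℝ) (c : ℕ) : ℕ := ⌊((c : ℝ) + θ) / (l + 1)⌋₊

/-- the column `c` is missing -/
def Mis (l θ : ℝ) (c : ℕ) : Prop := (l + 1) * (ph l θ c : ℝ) + l * θ < c

section
variable {l θ : ℝ} {E : Type} [Field E]

theorem ph_le_real (hl : 1 < l) (h0 : 0 ≤ θ) (c : ℕ) : (l + 1) * (ph l θ c : ℝ) ≤ c + θ := by
  have hc : (0 : ℝ) ≤ c := Nat.cast_nonneg c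
  have h1 : (0 : ℝ) ≤ ((c : ℝ) + θ) / (l + 1) := by positivity
  have h2 := Nat.floor_le h1
  have h3 : (0 : ℝ) < l + 1 := by linarith
  rw [le_div_iff₀ h3] at h2
  unfold ph
  linarith

theorem lt_ph_real (hl : 1 < l) (c : ℕ) : (c : ℝ) + θ < (l + 1) * ((ph l θ c : ℝ) + 1) := by
  have h3 : (0 : ℝ) < l + 1 := by linarith
  have h2 := Nat.lt_floor_add_one (((c : ℝ) + θ) / (l + 1))
  rw [div_lt_iff₀ h3] at h2
  unfold ph
  linarith

theorem ph_mono (hl : 1 < l) {c c' : ℕ} (h : c ≤ c') : ph l θ c ≤ ph l θ c' := by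
  unfold ph
  apply Nat.floor_mono
  have h3 : (0 : ℝ) < l + 1 := by linarith
  have : (c : ℝ) ≤ c' := by exact_mod_cast h
  exact div_le_div_of_nonneg_right (by linarith) h3.le

theorem ph_eq (hl : 1 < l) {c e : ℕ} (h1 : (l + 1) * (e : ℝ) ≤ c + θ)
    (h2 : (c : ℝ) + θ < (l + 1) * ((e : ℝ) + 1)) : ph l θ c = e := by
  have h3 : (0 : ℝ) < l + 1 := by linarith
  unfold ph
  have he : (0 : ℝ) ≤ e := Nat.cast_nonneg e
  have h4 : (0 : ℝ) ≤ ((c : ℝ) + θ) / (l + 1) :=
    div_nonneg (le_trans (by positivity) h1) h3.le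
  rw [Nat.floor_eq_iff h4]
  rw [le_div_iff₀ h3, div_lt_iff₀ h3]
  constructor <;> linarith

theorem ph_succ_le (hl : 1 < l) (h0 : 0 ≤ θ) (c : ℕ) : ph l θ (c + 1) ≤ ph l θ c + 1 := by
  have h1 := ph_le_real hl h0 (c + 1)
  have h2 := lt_ph_real (θ := θ) hl c
  have h3 : (0 : ℝ) < l + 1 := by linarith
  push_cast at h1
  by_contra hcon
  have h4 : ph l θ c + 2 ≤ ph l θ (c + 1) := by omega
  have h5 : (ph l θ c : ℝ) + 2 ≤ ph l θ (c + 1) := by exact_mod_cast h4
  nlinarith

theorem ph_le (hl : 1 < l) (h0 : 0 ≤ θ) (h1 : θ < 1) (c : ℕ) : ph l θ c ≤ c := by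
  have h2 := ph_le_real hl h0 c
  by_contra hcon
  have h3 : c + 1 ≤ ph l θ c := by omega
  have h4 : (c : ℝ) + 1 ≤ ph l θ c := by exact_mod_cast h3
  have hc : (0 : ℝ) ≤ c := Nat.cast_nonneg c
  nlinarith

theorem ix_mono (hl : 1 < l) (h0 : 0 ≤ θ) {c c' : ℕ} (h : c ≤ c') :
    c - ph l θ c ≤ c' - ph l θ c' := by
  induction c', h using Nat.le_induction with
  | base => exact le_rfl
  | succ n hn ih =>
    have := ph_succ_le hl h0 n
    omega

theorem not_mis_zero (hl : 1 < l) (h0 : 0 ≤ θ) : ¬ Mis l θ 0 := by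
  unfold Mis
  have : (0 : ℝ) ≤ (l + 1) * (ph l θ 0 : ℝ) + l * θ := by positivity
  push_cast
  linarith

/-- a polynomial `(1 + u) ^ n B` with `deg B < c` is not congruent to a nonzero constant
modulo `u ^ (c + 1)` -/
theorem const_zero {B : E[X]} {n c : ℕ} (hn : 1 ≤ n) (hc : 1 ≤ c) (hB : B.natDegree < c) {a : E}
    (hE : ∀ b : ℕ, 1 ≤ b → b ≤ n + (c - 1) → (b : E) ≠ 0)
    (h : (X : E[X]) ^ (c + 1) ∣ C a - (1 + X) ^ n * B) : a = 0 := by
  have _ := hc
  obtain ⟨H, hH⟩ := h
  -- the derivative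
  have hd : (X : E[X]) ^ c ∣ derivative (C a - (1 + X) ^ n * B) := by
    rw [hH, derivative_mul, derivative_X_pow]
    refine dvd_add ?_ ?_
    · rw [Nat.add_sub_cancel]
      exact Dvd.intro_left (C ((c + 1 : ℕ) : E)) rfl |>.mul_right _
    · exact (pow_dvd_pow X (by omega)).mul_right _
  have hder : derivative (C a - (1 + X) ^ n * B) =
      -((1 + X) ^ (n - 1) * (C (n : E) * B + (1 + X) * derivative B)) := by
    obtain ⟨k, rfl⟩ : ∃ k, n = k + 1 := ⟨n - 1, by omega⟩
    rw [derivative_sub, derivative_C, derivative_mul, derivative_pow]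
    simp only [Nat.add_sub_cancel, derivative_add, derivative_one, derivative_X, zero_add, mul_one]
    rw [pow_succ]
    ring
  rw [hder, dvd_neg] at hd
  have hcop : IsCoprime ((X : E[X]) ^ c) ((1 + X) ^ (n - 1)) := by
    apply IsCoprime.pow
    exact ⟨-1, 1, by ring⟩
  have hd2 := hcop.dvd_of_dvd_mul_left hd
  have hz : C (n : E) * B + (1 + X) * derivative B = 0 := by
    by_contra hne
    have h1 := natDegree_le_of_dvd hd2 hne
    rw [natDegree_X_pow] at h1
    have h2 : (C (n : E) * B + (1 + X) * derivative B).natDegree ≤ B.natDegree := by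
      refine (natDegree_add_le _ _).trans (max_le (natDegree_C_mul_le _ _) ?_)
      by_cases hB0 : B.natDegree = 0
      · rw [natDegree_eq_zero] at hB0
        obtain ⟨b, hb⟩ := hB0
        rw [← hb]
        simp
      · refine (natDegree_mul_le).trans ?_
        have h3 := natDegree_derivative_lt hB0
        have h4 : (1 + X : E[X]).natDegree ≤ 1 := by
          rw [add_comm, ← C_1]
          exact (natDegree_X_add_C _).le
        omega
    omega
  have hB0 : B = 0 := by
    by_contra hne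
    have h1 := congrArg (fun P : E[X] => P.coeff B.natDegree) hz
    simp only [coeff_add, coeff_C_mul, coeff_zero] at h1
    have h2 : ((1 + X) * derivative B).coeff B.natDegree = B.natDegree * B.leadingCoeff := by
      rw [add_mul, one_mul, coeff_add]
      have h3 : (derivative B).coeff B.natDegree = 0 := by
        rw [coeff_derivative, coeff_eq_zero_of_natDegree_lt (Nat.lt_succ_self _), zero_mul]
      rw [h3, zero_add]
      rcases Nat.eq_zero_or_pos B.natDegree with h4 | h4
      · rw [h4]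
        simp
      · obtain ⟨b, hb⟩ : ∃ b, B.natDegree = b + 1 := ⟨B.natDegree - 1, by omega⟩
        rw [hb, coeff_X_mul, coeff_derivative, ← hb, Polynomial.leadingCoeff, hb]
        push_cast
        ring
    rw [h2, ← Polynomial.leadingCoeff] at h1
    have h3 : ((n : E) + B.natDegree) * B.leadingCoeff = 0 := by rw [add_mul]; exact h1
    have h4 : (n : E) + B.natDegree ≠ 0 := by
      have := hE (n + B.natDegree) (by omega) (by omega)
      push_cast at this
      exact this
    rcases mul_eq_zero.1 h3 with h5 | h5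
    · exact h4 h5
    · exact hne (leadingCoeff_eq_zero.1 h5)
  rw [hB0, mul_zero, sub_zero] at hH
  have h1 := congrArg (fun P : E[X] => P.coeff 0) hH
  simp only [coeff_C_zero] at h1
  rw [h1, mul_coeff_zero]
  simp

/-- the orders of the terms are distinct -/
theorem all_zero {N : ℕ} {Γ : ℕ → E} {e : ℕ → ℕ}
    (h : ∑ c ∈ range (N + 1), C (Γ c) * (X ^ c * (1 + X) ^ e c) = (0 : E[X])) :
    ∀ c ≤ N, Γ c = 0 := by
  by_contra hcon
  push Not at hcon
  classical
  have hex : ∃ c, c ≤ N ∧ Γ c ≠ 0 := hcon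
  set c0 := Nat.find hex with hc0
  have h1 := Nat.find_spec hex
  rw [← hc0] at h1
  have h2 := congrArg (fun P : E[X] => P.coeff c0) h
  simp only [finsetSum_coeff, coeff_C_mul, coeff_zero, coeff_X_pow_mul'] at h2
  rw [sum_eq_single c0] at h2
  · rw [if_pos le_rfl, Nat.sub_self, coeff_zero_eq_eval_zero] at h2
    simp at h2
    exact h1.2 h2
  · intro c hc hne
    rcases lt_or_gt_of_ne hne with h3 | h3
    · have h4 : Γ c = 0 := by
        by_contra h5
        exact Nat.find_min hex h3 ⟨by rw [mem_range] at hc; omega, h5⟩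
      rw [h4, zero_mul]
    · rw [if_neg (by omega), mul_zero]
  · intro h3
    exact absurd (mem_range.2 (by omega)) h3

/-- **the identity in one variable** -/
theorem one_var (hl : 1 < l) (h0 : 0 ≤ θ) {m N : ℕ} {Γ : ℕ → E}
    (hmis : ∀ c, Mis l θ c → Γ c = 0)
    {c1 : ℕ} (hc1 : Mis l θ c1) (hq : c1 - ph l θ c1 ≤ m)
    (hE : ∀ b : ℕ, 1 ≤ b → b ≤ m + ph l θ c1 → (b : E) ≠ 0) {a : E}
    (h : ∑ c ∈ range (N + 1), C (Γ c) * (X ^ c * (1 + X) ^ (m - (c - ph l θ c))) = C a) :
    ∀ c ≤ N, Γ c = 0 := by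
  classical
  have hex : ∃ c, Mis l θ c := ⟨c1, hc1⟩
  obtain ⟨c0, hc0⟩ : ∃ c0, c0 = Nat.find hex := ⟨_, rfl⟩
  have hM : Mis l θ c0 := by rw [hc0]; exact Nat.find_spec hex
  have hmin : ∀ c < c0, ¬ Mis l θ c := fun c hc => Nat.find_min hex (by rw [← hc0]; exact hc)
  have hle : c0 ≤ c1 := by rw [hc0]; exact Nat.find_min' hex hc1
  have hq0 : c0 - ph l θ c0 ≤ m := (ix_mono hl h0 hle).trans hq
  have hpos : 1 ≤ c0 := by
    by_contra hcon
    have : c0 = 0 := by omega
    rw [this] at hM
    exact not_mis_zero hl h0 hM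
  -- the previous column is in the same phase
  have hprev : ph l θ (c0 - 1) = ph l θ c0 := by
    refine le_antisymm (ph_mono hl (by omega)) ?_
    by_contra hcon
    have h1 : ph l θ (c0 - 1) + 1 ≤ ph l θ c0 := by omega
    have h2 := hmin (c0 - 1) (by omega)
    unfold Mis at h2 hM
    push Not at h2
    have h3 : (ph l θ (c0 - 1) : ℝ) + 1 ≤ ph l θ c0 := by exact_mod_cast h1
    rw [Nat.cast_sub hpos] at h2
    push_cast at h2
    nlinarith
  have hphle : ph l θ c0 < c0 := by
    unfold Mis at hM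
    have h1 : (ph l θ c0 : ℝ) < c0 := by
      have h2 : (0 : ℝ) ≤ ph l θ c0 := Nat.cast_nonneg _
      have h3 : 0 ≤ l * θ := by positivity
      nlinarith
    exact_mod_cast h1
  obtain ⟨I, hI⟩ : ∃ I, I = c0 - 1 - ph l θ c0 := ⟨_, rfl⟩
  have hlow : ∀ c < c0, c - ph l θ c ≤ I ∧ ph l θ c ≤ ph l θ c0 := by
    intro c hc
    have h1 := ix_mono hl h0 (show c ≤ c0 - 1 by omega)
    rw [hprev] at h1
    exact ⟨by omega, ph_mono hl hc.le⟩
  have ha : a = 0 := by
    refine const_zero (n := m - I) (c := c0) (B := ∑ c ∈ range (N + 1) with c < c0,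
      C (Γ c) * (X ^ c * (1 + X) ^ (I - (c - ph l θ c)))) (by omega) hpos ?_ ?_ ?_
    rotate_left
    · intro b hb1 hb2
      apply hE b hb1
      have := ph_mono (θ := θ) hl hle
      omega
    rotate_left
    · have h1 : (∑ c ∈ range (N + 1) with c < c0,
          C (Γ c) * (X ^ c * (1 + X) ^ (I - (c - ph l θ c))) : E[X]).natDegree ≤ c0 - 1 := by
        apply natDegree_sum_le_of_forall_le
        intro c hc
        rw [mem_filter] at hc
        obtain ⟨h2, h3⟩ := hlow c hc.2
        refine (natDegree_C_mul_le _ _).trans (natDegree_mul_le.trans ?_)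
        rw [natDegree_X_pow]
        have h4 : ((1 + X : E[X]) ^ (I - (c - ph l θ c))).natDegree ≤ I - (c - ph l θ c) := by
          refine natDegree_pow_le.trans ?_
          have h5 : (1 + X : E[X]).natDegree ≤ 1 := by
            rw [add_comm, ← C_1]
            exact (natDegree_X_add_C _).le
          calc (I - (c - ph l θ c)) * (1 + X : E[X]).natDegree ≤ (I - (c - ph l θ c)) * 1 :=
                Nat.mul_le_mul_left _ h5
            _ = _ := mul_one _
        by_cases h6 : ph l θ c ≤ c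
        · omega
        · -- then `c = 0`-like situation
          omega
      omega
    · rw [← h, ← sum_filter_add_sum_filter_not (range (N + 1)) (fun c => c < c0), mul_sum]
      have h1 : (∑ c ∈ range (N + 1) with c < c0, C (Γ c) * (X ^ c * (1 + X) ^ (m - (c - ph l θ c)))) =
          ∑ c ∈ range (N + 1) with c < c0, (1 + X) ^ (m - I) *
            (C (Γ c) * (X ^ c * (1 + X) ^ (I - (c - ph l θ c))) : E[X]) := by
        refine sum_congr rfl fun c hc => ?_
        rw [mem_filter] at hc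
        obtain ⟨h2, h3⟩ := hlow c hc.2
        have e1 : m - (c - ph l θ c) = (m - I) + (I - (c - ph l θ c)) := by omega
        rw [e1, pow_add]
        ring
      rw [h1, add_sub_cancel_left]
      apply dvd_sum
      intro c hc
      rw [mem_filter] at hc
      rcases eq_or_ne c c0 with h2 | h2
      · rw [h2, hmis c0 hM]
        simp
      · refine Dvd.dvd.mul_left (Dvd.dvd.mul_right (pow_dvd_pow X ?_) _) _
        omega
  rw [ha, C_0] at h
  exact all_zero h

end

end Pool.Agent.K7.H8.Co
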