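import Pool.Agent.K7.H8.Co.Germ
import Pool.Agent.TH518.CW.TwoC

/-! Thirteen points: every degree. -/

set_option autoImplicit false

namespace Pool.Agent.K7.H8.Co

open Pool.Agent.TH716.CF Pool.Agent.TH518.CW Pool.Agent.H932R2 Pool.Agent.H932R3
  Pool.Agent.TH545.CF

universe u

section
variable {q v n : ℕ} {K σ : ℝ}

/-- the rows, with the exact numbers of elements -/
theorem exists_W3 (h : Num2 q v n K σ) {d M : ℕ} {R : ℕ → ℕ}
    (hR : ∀ l < M, (R l : ℤ) ≤ ⌊yy v K d l⌋ + ⌊zz q v K d l⌋ + 1)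
    (hnest : ∀ k l : ℕ, k ≤ l → l < M → 2 * ((l : ℝ) - k) ≤ (R k : ℝ) - R l) :
    ∃ W : Finset (ℤ × ℤ), W.card = ∑ k ∈ Finset.range M, R k ∧
      (∀ q' ∈ W, q' ∈ FlS (HH q v K d)) ∧ (∀ q ∈ W, 0 ≤ q.2) ∧
      ∀ (k : ℕ), ∀ q ∈ W, ∀ q' ∈ W, (k : ℤ) ≤ q.2 → (k : ℤ) ≤ q'.2 →
        q'.1 - q.1 < (R k : ℤ) := by
  classical
  refine ⟨((Finset.range M).sigma fun k => Finset.range (R k)).image (ft q v K d), ?_, ?_, ?_, ?_⟩
  · rw [Finset.card_image_of_injective _ (ft_inj q v K d), Finset.card_sigma]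
    simp
  · intro q' hq
    rw [Finset.mem_image] at hq
    obtain ⟨⟨l, i⟩, hil, rfl⟩ := hq
    rw [Finset.mem_sigma, Finset.mem_range, Finset.mem_range] at hil
    obtain ⟨hl, hi⟩ := hil
    simp only at hl hi
    have h1 := hR l hl
    have hz' := Int.floor_le (zz q v K d l)
    have hy' := Int.floor_le (yy v K d l)
    obtain ⟨Z, hZ⟩ : ∃ Z : ℤ, Z = ⌊zz q v K d l⌋ := ⟨_, rfl⟩
    obtain ⟨Y, hY⟩ : ∃ Y : ℤ, Y = ⌊yy v K d l⌋ := ⟨_, rfl⟩
    rw [← hZ] at hz' h1
    rw [← hY] at hy' h1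
    obtain ⟨x, hx⟩ : ∃ x : ℤ, x = i - Z := ⟨_, rfl⟩
    have hxY : x ≤ Y := by omega
    have hxy : (x : ℝ) ≤ yy v K d l := (by exact_mod_cast hxY : (x : ℝ) ≤ Y).trans hy'
    have hxZ : -x ≤ Z := by omega
    have hxz : -(x : ℝ) ≤ zz q v K d l := (by exact_mod_cast hxZ : -(x : ℝ) ≤ Z).trans hz'
    have e1 : ft q v K d ⟨l, i⟩ = (2 * (d : ℤ) - x, (l : ℤ)) := by
      unfold ft
      rw [← hZ, hx]
      ext
      · simp only; ring
      · rfl
    rw [e1]
    have hqv : (q : ℤ) * v = 2 := by exact_mod_cast h.num.hqv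
    have hq1 : (1 : ℤ) ≤ q := by exact_mod_cast h.q1
    have hv1 : (1 : ℤ) ≤ v := by
      by_contra hcon
      have : (v : ℤ) = 0 := by omega
      rw [this] at hqv
      omega
    have hK := h.num.hK
    have hvR : (0 : ℝ) ≤ v := Nat.cast_nonneg v
    have hlR : (0 : ℝ) ≤ l := Nat.cast_nonneg l
    have hLl : 0 ≤ (K + v) * l := mul_nonneg (by linarith) hlR
    have hvl : 0 ≤ (v : ℤ) * l := by positivity
    by_cases hx1 : 1 ≤ x
    · have hqx : x ≤ q * x := by nlinarith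
      refine ⟨by simp, 0, ⟨le_rfl, ?_, Or.inl ⟨?_, ?_⟩⟩, ⟨?_, ?_, Or.inl ⟨?_, ?_⟩⟩⟩
      · simp only
        unfold yy at hxy
        push_cast
        linarith
      · simp only
        linarith
      · simp only
        have e2 : 2 * (d : ℤ) - (2 * d - x) + v * 0 = x := by ring
        rw [e2]
        omega
      · simp only
        omega
      · simp only
        unfold yy at hxy
        push_cast
        linarith
      · simp only
        linarith
      · simp only
        have e2 : (q : ℤ) * (2 * (d : ℤ) - (2 * d - x) + v * (0 + l)) = q * x + (q * v) * l := by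
          ring
        rw [e2, hqv]
        omega
    · have hqx : (q : ℤ) * x ≤ 0 := by nlinarith
      have hvqx : (v : ℤ) * (1 - q * x) = v - 2 * x := by
        calc (v : ℤ) * (1 - q * x) = v - (q * v) * x := by ring
          _ = v - 2 * x := by rw [hqv]
      have hkey : (x : ℝ) + (K + v) * (1 - q * x + l) ≤ K * d / 3 := by
        unfold zz at hxz
        rw [le_div_iff₀ h.den] at hxz
        unfold yy at hxz
        linarith
      have hqR : (q : ℝ) * v = 2 := by exact_mod_cast hqv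
      refine ⟨by simp, 1 - q * x, ⟨?_, ?_, Or.inl ⟨?_, ?_⟩⟩, ⟨?_, ?_, Or.inl ⟨?_, ?_⟩⟩⟩
      · simp only
        omega
      · simp only
        push_cast
        linarith
      · simp only
        have e2 : 2 * (d : ℤ) - (2 * d - x) + v * (1 - q * x) = v - x := by
          rw [hvqx]; ring
        rw [e2]
        omega
      · simp only
        have e2 : (q : ℤ) * (2 * (d : ℤ) - (2 * d - x) + v * (1 - q * x)) = 2 - q * x := by
          rw [hvqx]
          calc (q : ℤ) * (2 * (d : ℤ) - (2 * d - x) + (v - 2 * x)) = q * v - q * x := by ring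
            _ = 2 - q * x := by rw [hqv]
        rw [e2]
        omega
      · simp only
        omega
      · simp only
        push_cast
        linarith
      · simp only
        have e2 : 2 * (d : ℤ) - (2 * d - x) + v * (1 - q * x + l) = v - x + v * l := by
          rw [mul_add, hvqx]; ring
        rw [e2]
        omega
      · simp only
        have e2 : (q : ℤ) * (2 * (d : ℤ) - (2 * d - x) + v * (1 - q * x + l)) =
            2 - q * x + 2 * l := by
          have hv3 : (v : ℤ) * (1 - q * x + l) = v - 2 * x + v * l := by rw [mul_add, hvqx]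
          rw [hv3]
          calc (q : ℤ) * (2 * (d : ℤ) - (2 * d - x) + (v - 2 * x + v * l)) =
              q * v - q * x + (q * v) * l := by ring
            _ = 2 - q * x + 2 * l := by rw [hqv]
        rw [e2]
        omega
  · intro q hq
    rw [Finset.mem_image] at hq
    obtain ⟨⟨l, i⟩, hil, rfl⟩ := hq
    simp [ft]
  · intro k q1 hq q1' hq' hk hk'
    rw [Finset.mem_image] at hq hq'
    obtain ⟨⟨l, i⟩, hil, rfl⟩ := hq
    obtain ⟨⟨l', i'⟩, hil', rfl⟩ := hq'
    rw [Finset.mem_sigma, Finset.mem_range, Finset.mem_range] at hil hil'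
    simp only [ft] at hk hk' hil hil' ⊢
    have hkl : k ≤ l := by exact_mod_cast hk
    have hkl' : k ≤ l' := by exact_mod_cast hk'
    have hkR : (k : ℝ) ≤ l := by exact_mod_cast hkl
    have hkR' : (k : ℝ) ≤ l' := by exact_mod_cast hkl'
    have h1 : ⌊zz q v K d l'⌋ ≤ ⌊zz q v K d k⌋ := Int.floor_mono (zz_anti h hkR')
    have h2 : ⌊zz q v K d k⌋ ≤ ⌊zz q v K d l⌋ + ((R k : ℤ) - R l) := by
      rw [← Int.floor_add_intCast]
      apply Int.floor_mono
      push_cast
      have h3 := zz_step h (d := d) hkR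
      have h4 := hnest k l hkl hil.1
      linarith
    have h5 : (i : ℤ) < R l := by exact_mod_cast hil.2
    have h7 : (0 : ℤ) ≤ i' := Int.natCast_nonneg i'
    linarith

end

/-- the slope -/
noncomputable def KK : ℝ := (9 + 3 * √(13 : ℝ)) / 2

theorem par13 {θ : ℝ} (h0 : 0 ≤ θ) (h1 : θ < 1) : Par (KK + 1) θ := by
  have hs : √(13 : ℝ) ^ 2 = 13 := Real.sq_sqrt (by norm_num)
  have hs0 : 0 ≤ √(13 : ℝ) := Real.sqrt_nonneg _
  unfold KK
  refine ⟨by linarith, by nlinarith, ?_, h0, h1⟩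
  nlinarith

/-- a deficient row gives a missing column -/
theorem mis_of_def {l θ : ℝ} (hP : Par l θ) {i : ℕ} (hi : 1 ≤ i)
    (hdef : ⌊(l + 1) * i + θ⌋ + ⌊((l + 1) * ((i : ℝ) - 1) + θ) / l⌋ + 1 < 13 * (i : ℤ)) :
    ∃ c1 : ℕ, Mis l θ c1 ∧ c1 - ph l θ c1 = i ∧ l * (ph l θ c1 : ℝ) < i := by
  have hl := hP.l1
  have hl0 : 0 < l := by linarith
  have hiR : (1 : ℝ) ≤ i := by exact_mod_cast hi
  have hnn : 0 ≤ ((i : ℝ) - 1 + θ) / l := div_nonneg (by linarith [hP.t0]) hl0.le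
  obtain ⟨e, he⟩ : ∃ e : ℕ, e = ⌊((i : ℝ) - 1 + θ) / l⌋₊ := ⟨_, rfl⟩
  have he1 : l * (e : ℝ) ≤ (i : ℝ) - 1 + θ := by
    have := Nat.floor_le hnn
    rw [← he, le_div_iff₀ hl0] at this
    linarith
  have he2 : (i : ℝ) - 1 + θ < l * ((e : ℝ) + 1) := by
    have := Nat.lt_floor_add_one (((i : ℝ) - 1 + θ) / l)
    rw [← he, div_lt_iff₀ hl0] at this
    linarith
  have hfl : ⌊((l + 1) * ((i : ℝ) - 1) + θ) / l⌋ = (i : ℤ) - 1 + e := by
    rw [Int.floor_eq_iff, le_div_iff₀ hl0, div_lt_iff₀ hl0]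
    push_cast
    constructor
    · nlinarith
    · nlinarith
  rw [hfl] at hdef
  have h1 : ⌊(l + 1) * (i : ℝ) + θ⌋ < 12 * (i : ℤ) - e := by omega
  rw [Int.floor_lt] at h1
  push_cast at h1
  have hph : ph l θ (i + e) = e := by
    apply ph_eq hl
    · push_cast
      nlinarith
    · push_cast
      nlinarith
  refine ⟨i + e, ?_, by rw [hph]; omega, by rw [hph]; linarith [hP.t1]⟩
  unfold Mis
  rw [hph]
  push_cast
  have h2 : (e : ℝ) + θ < (11 - l) * i := by linarith
  have h3 : l * ((e : ℝ) + θ) < l * ((11 - l) * i) := mul_lt_mul_of_pos_left h2 hl0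
  have h4 : l * ((11 - l) * (i : ℝ)) = i := by
    have := hP.eq
    have e1 : l * ((11 - l) * (i : ℝ)) = (11 * l - l ^ 2) * i := by ring
    rw [e1, ← this]
    ring
  rw [h4] at h3
  linarith

/-- the degree which is a multiple of three -/
theorem bad_coll {m d : ℕ} (h3 : 3 ∣ d) (h1 : √(13 : ℝ) * m < d)
    (h2 : 2 * (d : ℝ) + 3 < √(13 : ℝ) * (2 * m + 1)) {p : ℕ} (hp : p = 0 ∨ p.Prime)
    (hpm : p = 0 ∨ 11 * m ≤ 10 * p) (k : Type u) [Field k] [CharP k p] :
    ∃ F : MvPolynomial (Fin (13 + 1)) k, F ≠ 0 ∧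
      ∀ (c : k) (a : Fin 13 → k), MvPolynomial.eval (Fin.cons c a : Fin (13 + 1) → k) F ≠ 0 →
        JetDim 13 m c a d := by
  classical
  have h13 : Num2 1 2 13 KK (√(13 : ℝ)) := num2_13
  have hs : √(13 : ℝ) ^ 2 = 13 := Real.sq_sqrt (by norm_num)
  have hs3 := h13.s3
  obtain ⟨σ, hσ⟩ : ∃ σ, σ = √(13 : ℝ) := ⟨_, rfl⟩
  rw [← hσ] at hs hs3 h1 h2
  have hKσ : KK = (9 + 3 * σ) / 2 := by rw [hσ]; rfl
  obtain ⟨θ, hθ⟩ : ∃ θ : ℝ, θ = KK * d / 3 - (KK + 2) * m := ⟨_, rfl⟩
  have hθ1 : θ = (3 + σ) / 2 * (d - σ * m) := by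
    rw [hθ, hKσ]
    linear_combination (m : ℝ) / 2 * hs
  have ht0 : 0 ≤ θ := by
    rw [hθ1]
    exact mul_nonneg (by linarith) (by linarith)
  have ht1 : θ < 1 := by
    rw [hθ1]
    have e1 : (3 + σ) / 2 * ((σ - 3) / 2) = 1 := by linear_combination (1 / 4) * hs
    rw [← e1]
    apply mul_lt_mul_of_pos_left _ (by linarith)
    linarith
  have hP := par13 ht0 ht1
  obtain ⟨t0, t1, _⟩ := num_tau h13.num
  by_cases hdef : ∃ l < m, ⌊yy 2 KK d l⌋ + ⌊zz 1 2 KK d l⌋ + 1 < 13 * ((m : ℤ) - l)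
  · -- emptiness
    obtain ⟨l, hl, hd⟩ := hdef
    obtain ⟨i, hi⟩ : ∃ i, i = m - l := ⟨_, rfl⟩
    have hiR : (i : ℝ) = m - l := by rw [hi, Nat.cast_sub hl.le]
    obtain ⟨c1, hc1, hq, hlp⟩ := mis_of_def hP (i := i) (by omega) (by
      have e1 : (KK + 1 + 1) * (i : ℝ) + θ = yy 2 KK d l := by
        unfold yy
        rw [hθ, hiR]
        push_cast
        ring
      have e2 : ((KK + 1 + 1) * ((i : ℝ) - 1) + θ) / (KK + 1) = zz 1 2 KK d l := by
        unfold zz
        rw [← e1]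
        push_cast
        congr 1
        · ring
        · ring
      rw [e1, e2]
      have e3 : (i : ℤ) = m - l := by omega
      rw [e3]
      exact hd)
    have hE : EmpG p (fun _ : Unit => 13) (fun _ => m) (FlS (Sh d KK (KK / 3 - 3))) := by
      obtain ⟨E, hE1, hE2⟩ : ∃ (E : Type) (_ : Field E), CharP E p := by
        rcases hp with h | h
        · subst h
          exact ⟨ℚ, inferInstance, inferInstance⟩
        · have : Fact p.Prime := ⟨h⟩
          exact ⟨ZMod p, inferInstance, inferInstance⟩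
      refine empG_core E hP hc1 (by omega) ?_ (e := 2 * (d : ℤ)) ?_
      · intro b hb1 hb2 hb3
        have h4 := (CharP.cast_eq_zero_iff E p b).1 hb3
        have h5 : p ≤ b := Nat.le_of_dvd (by omega) h4
        rcases hpm with h6 | h6
        · rw [h6, zero_dvd_iff] at h4
          omega
        · have h7 : 10 < KK + 1 := by rw [hKσ]; linarith
          have h8 : (0 : ℝ) ≤ ph (KK + 1) θ c1 := Nat.cast_nonneg _
          have h9 : 10 * (ph (KK + 1) θ c1 : ℝ) < i := by nlinarith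
          have h10 : 10 * ph (KK + 1) θ c1 < i := by exact_mod_cast h9
          omega
      rintro ⟨a, b⟩ hab
      obtain ⟨g1, g2, g3⟩ := (fl_eq h13.num a b).1 hab
      simp only at g1 g2 g3 ⊢
      refine ⟨g1, ?_⟩
      rcases g3 with ⟨g3, g4⟩ | ⟨_, g4, g5⟩
      · left
        refine ⟨by push_cast at g4; omega, ?_⟩
        rw [hθ]
        push_cast at g2 ⊢
        linarith
      · right
        exact ⟨by omega, g5⟩
    obtain ⟨L, _, _, c0, a0, h0⟩ := key_coll t0 t1 (tri_of_fl (s := KK) (c := 6)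
      (by push_cast; ring) hE)
    obtain ⟨F, hF, hF'⟩ := coll_transfer (L := k) p (r := 13) (m := m) (c0 := c0) (a0 := a0)
      (d := d) (fun P hP hP' => h0 P hP hP')
    refine ⟨F, hF, fun c a hc => ?_⟩
    exact jet_full (hF' c a hc).rk d le_rfl
  · -- independence
    push Not at hdef
    obtain ⟨W, hW, hWS, hW0, hrow⟩ := exists_W3 h13 (d := d) (M := m)
      (R := fun l => 13 * (m - l))
      (by
        intro l hl
        have := hdef l hl
        push_cast [Nat.cast_sub hl.le]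
        exact this)
      (by
        intro k' l hkl hl
        push_cast [Nat.cast_sub hl.le, Nat.cast_sub (hkl.trans hl.le)]
        have h1 : (k' : ℝ) ≤ l := by exact_mod_cast hkl
        linarith)
    rw [sum_rows] at hW
    obtain ⟨hfin, hcard⟩ := hh_card h13.num (d := d)
    have hWle : W.card ≤ (FlS (HH 1 2 KK d)).ncard := by
      rw [← Set.ncard_coe_finset W]
      exact Set.ncard_le_ncard (fun q hq => hWS q hq) hfin
    have hE := EmpG_add (v := (d + 2).choose 2 - 13 * (m + 1).choose 2) hp hfin hWS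
      (by omega) hW0 hrow
    obtain ⟨F, hF, hF'⟩ := ind_of_emp (k := k) t0 t1 (by omega) (chain2 h13.num hE)
    exact ⟨F, hF, fun c a hc => hF' c a hc d le_rfl⟩

/-- **thirteen points**: every degree -/
theorem thirteen_all {m p : ℕ} (hpm : p = 0 ∨ 11 * m ≤ 10 * p) (k : Type u) [Field k] [CharP k p] :
    ∃ F : MvPolynomial (Fin (13 + 1)) k, F ≠ 0 ∧
      ∀ (c : k) (a : Fin 13 → k), MvPolynomial.eval (Fin.cons c a : Fin (13 + 1) → k) F ≠ 0 →
        ∀ d : ℕ, JetDim 13 m c a d := by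
  classical
  obtain ⟨F1, hF1, hF1'⟩ := thirteen_coll (m := m) k
  have hs : √(13 : ℝ) ^ 2 = 13 := Real.sq_sqrt (by norm_num)
  have hs0 : 0 ≤ √(13 : ℝ) := Real.sqrt_nonneg _
  by_cases hbad : ∃ d : ℕ, 3 ∣ d ∧ √(13 : ℝ) * m < d ∧ 2 * (d : ℝ) + 3 < √(13 : ℝ) * (2 * m + 1)
  · obtain ⟨d0, h3, h1, h2⟩ := hbad
    obtain ⟨F2, hF2, hF2'⟩ := bad_coll h3 h1 h2 (CharP.char_is_prime_or_zero k p).symm hpm k
    refine ⟨F1 * F2, mul_ne_zero hF1 hF2, fun c a hc d => ?_⟩
    rw [map_mul] at hc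
    have c1 := left_ne_zero_of_mul hc
    have c2 := right_ne_zero_of_mul hc
    by_cases hd : (¬ 3 ∣ d ∨ (d : ℝ) ≤ √((13 : ℕ) : ℝ) * m ∨
          √((13 : ℕ) : ℝ) * (2 * m + 1) ≤ 2 * d + 3)
    · exact hF1' c a c1 d hd
    · push Not at hd
      push_cast at hd
      obtain ⟨_, g1, g2⟩ := hd
      have h5 : √(13 : ℝ) < 4 := by nlinarith
      have e1 : d = d0 := by
        have a1 : (d : ℝ) < d0 + 1 := by nlinarith
        have a2 : (d0 : ℝ) < d + 1 := by nlinarith
        have b1 : d < d0 + 1 := by exact_mod_cast a1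
        have b2 : d0 < d + 1 := by exact_mod_cast a2
        omega
      rw [e1]
      exact hF2' c a c2
  · push Not at hbad
    refine ⟨F1, hF1, fun c a hc d => hF1' c a hc d ?_⟩
    push_cast
    by_cases h3 : 3 ∣ d
    · right
      by_cases h1 : (d : ℝ) ≤ √(13 : ℝ) * m
      · exact Or.inl h1
      · exact Or.inr (hbad d h3 (not_le.1 h1))
    · exact Or.inl h3

end Pool.Agent.K7.H8.Co
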