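import Pool.Agent.K7.H8.Co.One

/-! The top columns. -/

set_option autoImplicit false

namespace Pool.Agent.K7.H8.Co

open Polynomial Finset

/-- the parameters: `l` and `11 - l` are inverse to each other -/
structure Par (l θ : ℝ) : Prop where
  l1 : 1 < l
  l12 : l < 12
  eq : l ^ 2 + 1 = 11 * l
  t0 : 0 ≤ θ
  t1 : θ < 1

variable {E : Type} [Field E]

/-- a family of polynomials in the weighted triangle with the conditions of the multiplicity -/
structure Sys (l θ : ℝ) (m N : ℕ) (F : ℕ → E[X]) : Prop where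
  top : ∀ j, N < j → F j = 0
  supp : ∀ j p, (F j).coeff p ≠ 0 → (p : ℝ) + l * j ≤ (l + 1) * m + θ
  rows : ∀ k < m, (X - C 1 : E[X]) ^ (13 * (m - k)) ∣
    ∑ j ∈ range (N + 1), C (j.choose k : E) * (F j * X ^ (N - j))

/-- a polynomial divisible by `(X - 1) ^ M` all of whose exponents lie in a short interval -/
theorem short_zero {R : E[X]} {M a : ℕ} {b : ℝ} (hdvd : (X - C 1 : E[X]) ^ M ∣ R)
    (hlow : ∀ n, R.coeff n ≠ 0 → a ≤ n) (hup : ∀ n, R.coeff n ≠ 0 → (n : ℝ) ≤ b)
    (hab : b < a + M) : R = 0 := by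
  by_contra hne
  have h1 : (X : E[X]) ^ a ∣ R := by
    rw [X_pow_dvd_iff]
    intro d hd
    by_contra h2
    have := hlow d h2
    omega
  have hcop : IsCoprime ((X : E[X]) ^ a) ((X - C 1) ^ M) := by
    apply IsCoprime.pow
    refine ⟨1, -1, ?_⟩
    rw [C_1]
    ring
  have h2 := hcop.mul_dvd h1 hdvd
  have h3 := natDegree_le_of_dvd h2 hne
  have hm1 : ((X : E[X]) ^ a * (X - C 1) ^ M).natDegree = a + M := by
    rw [((monic_X_pow a).natDegree_mul ((monic_X_sub_C (1 : E)).pow M)), natDegree_X_pow,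
      natDegree_pow, natDegree_X_sub_C, mul_one]
  rw [hm1] at h3
  have h4 := hup R.natDegree (by
    rw [← Polynomial.leadingCoeff]
    exact leadingCoeff_ne_zero.2 hne)
  have h5 : ((a + M : ℕ) : ℝ) ≤ R.natDegree := by exact_mod_cast h3
  push_cast at h5
  linarith

/-- the coefficients of the column `c` -/
noncomputable def cf (F : ℕ → E[X]) (c : ℤ) (j : ℕ) : E :=
  if c ≤ j then (F j).coeff ((j : ℤ) - c).toNat else 0

section
variable {l θ : ℝ} {m N : ℕ} {F : ℕ → E[X]}

/-- the vanishing row conditions -/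
theorem col_rows (hP : Par l θ) (hF : Sys l θ m N F) {c : ℤ}
    (hc : ∀ j p, (F j).coeff p ≠ 0 → (j : ℤ) - p ≤ c) {k : ℕ} (hk : k < m)
    (hlt : (c : ℝ) + θ < (12 - l) * ((m : ℝ) - k)) :
    ∑ j ∈ range (N + 1), (j.choose k : E) * cf F c j = 0 := by
  classical
  rcases lt_or_ge (N : ℤ) c with hcN | hcN
  · apply sum_eq_zero
    intro j hj
    rw [mem_range] at hj
    unfold cf
    rw [if_neg (by omega), mul_zero]
  · obtain ⟨R, hR⟩ : ∃ R, R = ∑ j ∈ range (N + 1), C (j.choose k : E) * (F j * X ^ (N - j)) :=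
      ⟨_, rfl⟩
    have hcoef : ∀ n, R.coeff n ≠ 0 → ∃ j p : ℕ, j ≤ N ∧ k ≤ j ∧ (F j).coeff p ≠ 0 ∧
        n = p + (N - j) := by
      intro n hn
      rw [hR, finsetSum_coeff] at hn
      obtain ⟨j, hj, hj2⟩ := exists_ne_zero_of_sum_ne_zero hn
      rw [coeff_C_mul, coeff_mul_X_pow'] at hj2
      have h1 := left_ne_zero_of_mul hj2
      have h2 := right_ne_zero_of_mul hj2
      have h3 : N - j ≤ n := by
        by_contra h4
        rw [if_neg h4] at h2
        exact h2 rfl
      rw [if_pos h3] at h2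
      refine ⟨j, n - (N - j), by rw [mem_range] at hj; omega, ?_, h2, by omega⟩
      by_contra h4
      apply h1
      rw [Nat.choose_eq_zero_of_lt (by omega)]
      simp
    have hR0 : R = 0 := by
      refine short_zero (M := 13 * (m - k)) (a := ((N : ℤ) - c).toNat)
        (b := (N : ℝ) + ((l + 1) * m + θ) - (l + 1) * k) ?_ ?_ ?_ ?_
      · rw [hR]
        exact hF.rows k hk
      · intro n hn
        obtain ⟨j, p, h1, h2, h3, h4⟩ := hcoef n hn
        have := hc j p h3
        omega
      · intro n hn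
        obtain ⟨j, p, h1, h2, h3, h4⟩ := hcoef n hn
        have h5 := hF.supp j p h3
        have h6 : (n : ℝ) = p + N - j := by
          rw [h4, Nat.cast_add, Nat.cast_sub h1]; ring
        have h7 : (k : ℝ) ≤ j := by exact_mod_cast h2
        have h8 : (l + 1) * (k : ℝ) ≤ (l + 1) * j :=
          mul_le_mul_of_nonneg_left h7 (by linarith [hP.l1])
        rw [h6]
        linarith
      · have h1 : ((((N : ℤ) - c).toNat : ℤ) : ℝ) = N - c := by
          have : (((N : ℤ) - c).toNat : ℤ) = N - c := by omega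
          rw [this]; push_cast; ring
        have h2 : ((((N : ℤ) - c).toNat : ℕ) : ℝ) = N - c := by
          rw [← h1]; norm_cast
        rw [h2]
        push_cast [Nat.cast_sub hk.le]
        linarith
    have h1 := congrArg (fun P : E[X] => P.coeff ((N : ℤ) - c).toNat) (hR.symm.trans hR0)
    simp only [finsetSum_coeff, coeff_C_mul, coeff_zero, coeff_mul_X_pow'] at h1
    rw [← h1]
    refine sum_congr rfl fun j hj => ?_
    rw [mem_range] at hj
    unfold cf
    congr 1
    by_cases h2 : c ≤ j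
    · rw [if_pos h2, if_pos (by omega)]
      congr 1
      omega
    · rw [if_neg h2, if_neg (by omega)]

/-- a polynomial whose first Taylor coefficients at `1` vanish -/
theorem dvd_of_taylor {n M : ℕ} {g : ℕ → E}
    (h : ∀ k < M, ∑ j ∈ range n, (j.choose k : E) * g j = 0) :
    (X - C 1 : E[X]) ^ M ∣ ∑ j ∈ range n, C (g j) * X ^ j := by
  have h1 : (X : E[X]) ^ M ∣ taylor 1 (∑ j ∈ range n, C (g j) * X ^ j) := by
    rw [X_pow_dvd_iff]
    intro k hk
    rw [taylor_coeff, map_sum, eval_finsetSum, ← h k hk]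
    refine sum_congr rfl fun j _ => ?_
    rw [C_mul_X_pow_eq_monomial, hasseDeriv_monomial, eval_monomial, one_pow, mul_one]
  obtain ⟨q, hq⟩ := h1
  refine ⟨taylor (-1) q, ?_⟩
  have h7 : taylor (-1) (taylor 1 (∑ j ∈ range n, C (g j) * X ^ j)) =
      (∑ j ∈ range n, C (g j) * X ^ j : E[X]) := by
    rw [taylor_taylor, neg_add_cancel, taylor_zero]
  rw [← h7, hq, taylor_mul, taylor_pow, taylor_X]
  rw [C_neg, ← sub_eq_add_neg]

/-- the top column, negative -/
theorem top_neg (hP : Par l θ) (hF : Sys l θ m N F) {c : ℤ}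
    (hc : ∀ j p, (F j).coeff p ≠ 0 → (j : ℤ) - p ≤ c) (hneg : c < 0) (j p : ℕ)
    (hjp : (j : ℤ) - p = c) : (F j).coeff p = 0 := by
  classical
  have hcR : (c : ℝ) ≤ -1 := by exact_mod_cast (show c ≤ -1 by omega)
  have h1 := dvd_of_taylor (n := N + 1) (M := m) (g := cf F c) (fun k hk => col_rows hP hF hc hk (by
    have h2 : (k : ℝ) + 1 ≤ m := by exact_mod_cast hk
    have h3 : 0 < (12 - l) * ((m : ℝ) - k) := mul_pos (by linarith [hP.l12]) (by linarith)
    linarith [hP.t1]))
  have h2 : (∑ j ∈ range (N + 1), C (cf F c j) * X ^ j : E[X]) = 0 := by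
    refine short_zero (M := m) (a := 0) (b := (m : ℝ) - 1) h1 (fun n _ => Nat.zero_le n) ?_ (by
      push_cast; linarith)
    intro n hn
    rw [finsetSum_coeff] at hn
    obtain ⟨j', hj', hj2⟩ := exists_ne_zero_of_sum_ne_zero hn
    rw [coeff_C_mul, coeff_X_pow] at hj2
    have h3 := right_ne_zero_of_mul hj2
    have h4 : n = j' := by
      by_contra h5
      rw [if_neg h5] at h3
      exact h3 rfl
    have h5 := left_ne_zero_of_mul hj2
    unfold cf at h5
    rw [if_pos (by omega)] at h5
    have h6 := hF.supp _ _ h5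
    have h7 : ((((j' : ℤ) - c).toNat : ℕ) : ℝ) = j' - c := by
      have h8 : ((((j' : ℤ) - c).toNat : ℤ)) = j' - c := by omega
      have h9 : ((((j' : ℤ) - c).toNat : ℤ) : ℝ) = j' - c := by rw [h8]; push_cast; ring
      rw [← h9]; norm_cast
    rw [h7] at h6
    rw [h4]
    have h8 : (l + 1) * (j' : ℝ) < (l + 1) * m := by
      have := hP.t1
      linarith
    have h9 : (j' : ℝ) < m := lt_of_mul_lt_mul_left h8 (by linarith [hP.l1])
    have h10 : (j' : ℝ) + 1 ≤ m := by exact_mod_cast (show j' + 1 ≤ m by exact_mod_cast h9)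
    linarith
  by_cases hjN : N < j
  · rw [hF.top j hjN, coeff_zero]
  · have h3 := congrArg (fun P : E[X] => P.coeff j) h2
    simp only [finsetSum_coeff, coeff_C_mul, coeff_zero, coeff_X_pow] at h3
    rw [sum_eq_single j] at h3
    · rw [if_pos rfl, mul_one] at h3
      unfold cf at h3
      rw [if_pos (by omega)] at h3
      have h4 : ((j : ℤ) - c).toNat = p := by omega
      rwa [h4] at h3
    · intro b _ hb
      rw [if_neg (Ne.symm hb), mul_zero]
    · intro h4
      exact absurd (mem_range.2 (by omega)) h4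

/-- the top column, nonnegative -/
theorem top_pos (hP : Par l θ) (hF : Sys l θ m N F) {c : ℕ}
    (hc : ∀ j p, (F j).coeff p ≠ 0 → (j : ℤ) - p ≤ c) :
    ∃ γ : E, (Mis l θ c → γ = 0) ∧ ∀ p, (F (c + p)).coeff p =
      (C γ * (X - C 1) ^ (m - (c - ph l θ c))).coeff p := by
  classical
  have hl := hP.l1
  have hph := ph_le hl hP.t0 hP.t1 c
  have hphR : (ph l θ c : ℝ) ≤ c := by exact_mod_cast hph
  obtain ⟨g, hg⟩ : ∃ g : E[X], g = ∑ p ∈ range (N + 1), C ((F (c + p)).coeff p) * X ^ p := ⟨_, rfl⟩
  have hgc : ∀ p, g.coeff p = (F (c + p)).coeff p := by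
    intro p
    rw [hg]
    simp only [finsetSum_coeff, coeff_C_mul, coeff_X_pow]
    by_cases hp : p ≤ N
    · rw [sum_eq_single p]
      · rw [if_pos rfl, mul_one]
      · intro b _ hb
        rw [if_neg (Ne.symm hb), mul_zero]
      · intro h4
        exact absurd (mem_range.2 (by omega)) h4
    · rw [hF.top (c + p) (by omega), coeff_zero]
      apply sum_eq_zero
      intro b hb
      rw [mem_range] at hb
      rw [if_neg (by omega), mul_zero]
  -- divisibility
  have hdvd : ∀ M : ℕ, (∀ k < M, k < m ∧ ((c : ℝ) + θ < (12 - l) * ((m : ℝ) - k))) →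
      (X - C 1 : E[X]) ^ M ∣ g := by
    intro M hM
    have h1 := dvd_of_taylor (n := N + 1) (M := M) (g := cf F c) (fun k hk =>
      col_rows hP hF hc (hM k hk).1 (by have := (hM k hk).2; push_cast; exact this))
    have h2 : (∑ j ∈ range (N + 1), C (cf F c j) * X ^ j : E[X]) = X ^ c * g := by
      ext n
      rw [coeff_X_pow_mul', hgc]
      simp only [finsetSum_coeff, coeff_C_mul, coeff_X_pow]
      by_cases hn : n ≤ N
      · rw [sum_eq_single n]
        · rw [if_pos rfl, mul_one]
          unfold cf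
          by_cases hcn : c ≤ n
          · rw [if_pos (by exact_mod_cast hcn), if_pos hcn]
            have e1 : ((n : ℤ) - (c : ℤ)).toNat = n - c := by omega
            have e2 : c + (n - c) = n := by omega
            rw [e1, e2]
          · rw [if_neg (by exact_mod_cast hcn), if_neg hcn]
        · intro b _ hb
          rw [if_neg (Ne.symm hb), mul_zero]
        · intro h4
          exact absurd (mem_range.2 (by omega)) h4
      · have e1 : (∑ x ∈ range (N + 1), cf F c x * if n = x then (1 : E) else 0) = 0 := by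
          apply sum_eq_zero
          intro b hb
          rw [mem_range] at hb
          rw [if_neg (by omega), mul_zero]
        rw [e1]
        split_ifs with hcn
        · rw [hF.top (c + (n - c)) (by omega), coeff_zero]
        · rfl
    rw [h2] at h1
    have hcop : IsCoprime ((X - C 1 : E[X]) ^ M) (X ^ c) := by
      apply IsCoprime.pow
      refine ⟨-1, 1, ?_⟩
      rw [C_1]
      ring
    exact hcop.dvd_of_dvd_mul_left h1
  by_cases hg0 : g = 0
  · refine ⟨0, fun _ => rfl, fun p => ?_⟩
    rw [← hgc, hg0]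
    simp
  -- the degree
  have hdeg : ∀ p, g.coeff p ≠ 0 → p + (c - ph l θ c) ≤ m := by
    intro p hp
    rw [hgc] at hp
    have h1 := hF.supp _ _ hp
    push_cast at h1
    have h2 := lt_ph_real (θ := θ) hl c
    have h3 : (l + 1) * ((p : ℝ) + (c - ph l θ c)) < (l + 1) * (m + 1) := by nlinarith
    have h4 : (p : ℝ) + (c - ph l θ c) < m + 1 := lt_of_mul_lt_mul_left h3 (by linarith)
    have h5 : ((p + (c - ph l θ c) : ℕ) : ℝ) < ((m + 1 : ℕ) : ℝ) := by
      push_cast [Nat.cast_sub hph]
      exact h4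
    have h6 : p + (c - ph l θ c) < m + 1 := by exact_mod_cast h5
    omega
  have hd := hdeg g.natDegree (by
    rw [← Polynomial.leadingCoeff]
    exact leadingCoeff_ne_zero.2 hg0)
  obtain ⟨i, hi⟩ : ∃ i, i = c - ph l θ c := ⟨_, rfl⟩
  have hiR : (i : ℝ) = c - ph l θ c := by rw [hi, Nat.cast_sub hph]
  rw [← hi] at hd ⊢
  have hl0 : 0 < l := by linarith
  have hkey : l * (12 - l) = l + 1 := by
    have := hP.eq
    nlinarith
  have h1 := hdvd (m - i) (by
    intro k hk
    refine ⟨by omega, ?_⟩
    have h2 : (i : ℝ) + 1 ≤ m - k := by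
      have : i + 1 + k ≤ m := by omega
      have h3 : ((i + 1 + k : ℕ) : ℝ) ≤ m := by exact_mod_cast this
      push_cast at h3
      linarith
    have h3 : (12 - l) * ((i : ℝ) + 1) ≤ (12 - l) * ((m : ℝ) - k) :=
      mul_le_mul_of_nonneg_left h2 (by linarith [hP.l12])
    refine lt_of_lt_of_le ?_ h3
    have h4 : l * ((c : ℝ) + θ) < l * ((12 - l) * ((i : ℝ) + 1)) := by
      rw [← mul_assoc, hkey, hiR]
      have h5 := ph_le_real hl hP.t0 c
      have h6 := hP.t1
      nlinarith
    exact lt_of_mul_lt_mul_left h4 hl0.le)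
  obtain ⟨q, hq⟩ := h1
  have hq0 : q ≠ 0 := by
    rintro rfl
    rw [mul_zero] at hq
    exact hg0 hq
  have hmon : ((X - C 1 : E[X]) ^ (m - i)).Monic := (monic_X_sub_C (1 : E)).pow _
  have hqd : q.natDegree = 0 := by
    have h2 : g.natDegree = (m - i) + q.natDegree := by
      rw [hq, hmon.natDegree_mul' hq0, natDegree_pow, natDegree_X_sub_C, mul_one]
    omega
  obtain ⟨γ, hγ⟩ := natDegree_eq_zero.1 hqd
  refine ⟨γ, ?_, fun p => ?_⟩
  · intro hM
    exfalso
    apply hg0
    have h2 := hdvd (m - i + 1) (by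
      intro k hk
      have hi1 : 1 ≤ i := by
        by_contra h5
        have h6 : i = 0 := by omega
        unfold Mis at hM
        have h7 : (c : ℝ) = ph l θ c := by
          rw [h6] at hiR
          push_cast at hiR
          linarith
        have h8 : (0 : ℝ) ≤ ph l θ c := Nat.cast_nonneg _
        have h9 : 0 ≤ l * θ := mul_nonneg hl0.le hP.t0
        nlinarith
      refine ⟨by omega, ?_⟩
      have h2 : (i : ℝ) ≤ m - k := by
        have : i + k ≤ m := by omega
        have h3 : ((i + k : ℕ) : ℝ) ≤ m := by exact_mod_cast this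
        push_cast at h3
        linarith
      have h3 : (12 - l) * (i : ℝ) ≤ (12 - l) * ((m : ℝ) - k) :=
        mul_le_mul_of_nonneg_left h2 (by linarith [hP.l12])
      refine lt_of_lt_of_le ?_ h3
      have h4 : l * ((c : ℝ) + θ) < l * ((12 - l) * (i : ℝ)) := by
        rw [← mul_assoc, hkey, hiR]
        unfold Mis at hM
        nlinarith
      exact lt_of_mul_lt_mul_left h4 hl0.le)
    by_contra hne
    have h3 := natDegree_le_of_dvd h2 hg0
    rw [natDegree_pow, natDegree_X_sub_C, mul_one] at h3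
    omega
  · rw [← hgc, hq, ← hγ, mul_comm]

end

end Pool.Agent.K7.H8.Co
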